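import Pool.Agent.H969TP.Main

set_option autoImplicit false

namespace Pool.Agent.H969TP

open Cardinal MeasureTheory

/-- The Baire subsets of `2 ^ I`: the sets in the `σ`-algebra generated by the clopen sets. -/
def Baire (I : Type) : Type :=
  {s : Set (I → Bool) // MeasurableSet[MeasurableSpace.generateFrom {u : Set (I → Bool) | IsClopen u}] s}

/-- the Baire sets with the preorder `s ≤ t ↔ s \ t` is meager -/
def CohenPre (I : Type) : Type := Baire I

instance (I : Type) : Preorder (CohenPre I) where
  le s t := IsMeagre (s.1 \ t.1)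
  le_refl s := by
    rw [Set.sdiff_self]; exact IsMeagre.empty
  le_trans s t u hst htu :=
    (IsMeagre.union hst htu).mono (by
      intro x hx
      by_cases h : x ∈ t.1
      · exact Or.inr ⟨h, hx.2⟩
      · exact Or.inl ⟨hx.1, h⟩)

/-- Cohen forcing `ℂ(I)`: the Baire subsets of `2 ^ I` modulo the meager sets -/
def Cohen (I : Type) : Type := Antisymmetrization (CohenPre I) (· ≤ ·)

noncomputable instance (I : Type) : PartialOrder (Cohen I) :=
  inferInstanceAs (PartialOrder (Antisymmetrization (CohenPre I) (· ≤ ·)))

/-- the class of a Baire set -/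
def Cohen.mk {I : Type} (s : CohenPre I) : Cohen I := toAntisymmetrization (· ≤ ·) s

theorem Cohen.mk_le {I : Type} {s t : CohenPre I} : Cohen.mk s ≤ Cohen.mk t ↔ IsMeagre (s.1 \ t.1) :=
  Iff.rfl

noncomputable instance (I : Type) : OrderTop (Cohen I) where
  top := Cohen.mk ⟨Set.univ, MeasurableSet.univ⟩
  le_top := by
    intro a
    induction a using Quotient.inductionOn
    rename_i a
    change IsMeagre (a.1 \ Set.univ)
    rw [Set.sdiff_univ]; exact IsMeagre.empty

/-- the fair coin measure on `2 ^ I` -/
noncomputable def coin (I : Type) : Measure (I → Bool) :=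
  Measure.infinitePi fun _ : I => (PMF.uniformOfFintype Bool).toMeasure

/-- the Baire sets with the preorder `s ≤ t ↔ s \ t` is null -/
def RandomPre (I : Type) : Type := Baire I

noncomputable instance (I : Type) : Preorder (RandomPre I) where
  le s t := coin I (s.1 \ t.1) = 0
  le_refl s := by
    rw [Set.sdiff_self]; exact measure_empty
  le_trans s t u hst htu := by
    refine measure_mono_null ?_ (measure_union_null hst htu)
    intro x hx
    by_cases h : x ∈ t.1
    · exact Or.inr ⟨h, hx.2⟩
    · exact Or.inl ⟨hx.1, h⟩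

/-- Random forcing `𝔹(I)`: the Baire subsets of `2 ^ I` modulo the null sets -/
def Random (I : Type) : Type := Antisymmetrization (RandomPre I) (· ≤ ·)

noncomputable instance (I : Type) : PartialOrder (Random I) :=
  inferInstanceAs (PartialOrder (Antisymmetrization (RandomPre I) (· ≤ ·)))

/-- the class of a Baire set -/
def Random.mk {I : Type} (s : RandomPre I) : Random I := toAntisymmetrization (· ≤ ·) s

noncomputable instance (I : Type) : OrderTop (Random I) where
  top := Random.mk ⟨Set.univ, MeasurableSet.univ⟩
  le_top := by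
    intro a
    induction a using Quotient.inductionOn
    rename_i a
    change coin I (a.1 \ Set.univ) = 0
    rw [Set.sdiff_univ]; exact measure_empty

/-- the basic clopen set `{x | x i = true}` -/
def bas {I : Type} (i : I) : Baire I :=
  ⟨{x | x i = true}, MeasurableSpace.measurableSet_generateFrom (by
    have : IsClopen ((fun x : I → Bool => x i) ⁻¹' {true}) :=
      (isClopen_discrete ({true} : Set Bool)).preimage (continuous_apply i)
    exact this)⟩

theorem cohen_inj {I : Type} : Function.Injective fun i : I => Cohen.mk (bas i) := by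
  classical
  intro i j h
  by_contra hij
  have h1 : Cohen.mk (bas i) ≤ Cohen.mk (bas j) := le_of_eq h
  rw [Cohen.mk_le] at h1
  refine not_isMeagre_of_isOpen ?_ ?_ h1
  · have h2 : IsOpen ((fun x : I → Bool => x i) ⁻¹' {true}) :=
      (isOpen_discrete ({true} : Set Bool)).preimage (continuous_apply i)
    have h3 : IsClosed ((fun x : I → Bool => x j) ⁻¹' {true}) :=
      (isClosed_discrete ({true} : Set Bool)).preimage (continuous_apply j)
    exact h2.sdiff h3
  · refine ⟨fun k => decide (k = i), ?_, ?_⟩
    · simp [bas]
    · simp [bas, Ne.symm hij]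

theorem random_inj {I : Type} : Function.Injective fun i : I => Random.mk (bas i) := by
  classical
  intro i j h
  by_contra hij
  have h1 : Random.mk (bas i) ≤ Random.mk (bas j) := le_of_eq h
  have h2 : coin I ((bas i).1 \ (bas j).1) = 0 := h1
  have h3 : Set.pi (({i, j} : Finset I) : Set I) (fun k => if k = i then ({true} : Set Bool) else {false}) ⊆
      (bas i).1 \ (bas j).1 := by
    intro x hx
    have hi := hx i (by simp)
    have hj := hx j (by simp)
    simp only [if_true] at hi
    simp only [if_neg (Ne.symm hij)] at hj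
    refine ⟨hi, ?_⟩
    intro h4
    have h5 : x j = true := h4
    have h6 : x j = false := hj
    rw [h5] at h6
    exact absurd h6 (by simp)
  have h4 := measure_mono_null h3 h2
  rw [coin, Measure.infinitePi_pi _ (fun k _ => MeasurableSet.of_discrete)] at h4
  rw [Finset.prod_eq_zero_iff] at h4
  obtain ⟨k, -, hk⟩ := h4
  by_cases hki : k = i
  · rw [if_pos hki, PMF.toMeasure_apply_singleton _ _ (MeasurableSet.of_discrete)] at hk
    simp at hk
  · rw [if_neg hki, PMF.toMeasure_apply_singleton _ _ (MeasurableSet.of_discrete)] at hk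
    simp at hk

theorem exists_code (Q : Type) : ∃ c : Q → ZFSet.{0}, Function.Injective c :=
  ⟨fun q => (Ordinal.typein (α := Q) WellOrderingRel q).toZFSet, fun a b h =>
    Ordinal.typein_injective _ (Ordinal.toZFSet_injective h)⟩

theorem general {κ : Cardinal.{0}} (hκ : ℵ₁ ≤ κ) (hκ' : κ < κ ^ ℵ₀) (hC : Chang κ) (I : Type)
    (hI : κ ≤ #I) :
    (∀ c : Cohen I → ZFSet.{0}, Function.Injective c → ¬ TP c) ∧
      ∀ c : Random I → ZFSet.{0}, Function.Injective c → ¬ TP c :=
  ⟨fun c hc => not_TP hκ hκ' hC (hI.trans (Cardinal.mk_le_of_injective cohen_inj)) c hc,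
    fun c hc => not_TP hκ hκ' hC (hI.trans (Cardinal.mk_le_of_injective random_inj)) c hc⟩

theorem aleph_omega_lt : ℵ_ Ordinal.omega0.{0} < (ℵ_ Ordinal.omega0.{0}) ^ ℵ₀ := by
  have h := Cardinal.lt_power_cof_ord (Cardinal.aleph0_le_aleph.{0} Ordinal.omega0)
  rw [Cardinal.ord_aleph, Ordinal.cof_omega Ordinal.isSuccLimit_omega0, Ordinal.cof_omega0] at h
  exact h

end Pool.Agent.H969TP
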