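import Pool.Agent.H969TP.Defs

set_option autoImplicit false

namespace Pool.Agent.H969TP

open Cardinal FirstOrder FirstOrder.Language

/-! ### Hulls -/

theorem hull {E : Type 1} {J : Type} [Countable J] (ar : J → ℕ) (f : ∀ j, (Fin (ar j) → E) → E)
    (s : Set E) : ∃ X : Set E, s ⊆ X ∧ (∀ j x, (∀ i, x i ∈ X) → f j x ∈ X) ∧ #X ≤ max ℵ₀ #s ∧
      ∀ Y : Set E, s ⊆ Y → (∀ j x, (∀ i, x i ∈ Y) → f j x ∈ Y) → X ⊆ Y := by
  let L : FirstOrder.Language.{0, 0} := ⟨fun n => {j : J // ar j = n}, fun _ => Empty⟩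
  let _ : L.Structure E := ⟨fun {n} φ x => f φ.1 (fun i => x (Fin.cast φ.2 i)), fun R => Empty.elim R⟩
  refine ⟨Substructure.closure L s, Substructure.subset_closure, ?_, ?_, ?_⟩
  · intro j x hx
    exact (Substructure.closure L s).fun_mem (⟨j, rfl⟩ : L.Functions (ar j)) x hx
  · have h := Substructure.lift_card_closure_le (L := L) (s := s)
    have hc : #(Σ i, L.Functions i) ≤ ℵ₀ := by
      rw [Cardinal.mk_le_aleph0_iff]
      exact Function.Injective.countable (f := fun x : (Σ i, L.Functions i) => x.2.1) (by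
        rintro ⟨n, j, hj⟩ ⟨m, j', hj'⟩ h
        dsimp at h
        subst h
        subst hj
        subst hj'
        rfl)
    rw [Cardinal.lift_id', Cardinal.lift_id'] at h
    refine h.trans ?_
    have hc' : Cardinal.lift.{1, 0} #(Σ i, L.Functions i) ≤ ℵ₀ := Cardinal.lift_le_aleph0.2 hc
    refine max_le (le_max_left _ _) ?_
    refine (add_le_add_right hc' _).trans ?_
    refine Cardinal.add_le_of_le (le_max_left _ _) (le_max_right _ _) (le_max_left _ _)
  · intro Y hsY hY
    let S : L.Substructure E := ⟨Y, fun {n} φ x hx => by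
      obtain ⟨j, rfl⟩ := φ
      exact hY j x hx⟩
    exact (Substructure.closure_le (S := S)).2 hsY

section elem

variable {θ : Cardinal.{0}} {r : Hset θ → Hset θ → Prop} [Nonempty (HT θ r)]

/-- closed sets are elementary submodels -/
noncomputable def toEl (X : Set (HT θ r))
    (hX : ∀ (j : Σ n, (Lst.sum Lst.skolem₁).Functions n) (x : Fin j.1 → HT θ r),
      (∀ i, x i ∈ X) → Structure.funMap j.2 x ∈ X) : Lst.ElementarySubstructure (HT θ r) :=
  Substructure.elementarySkolem₁Reduct ⟨X, fun {n} φ x hx => hX ⟨n, φ⟩ x hx⟩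

theorem mem_toEl {X : Set (HT θ r)} {hX} {x : HT θ r} : x ∈ toEl X hX ↔ x ∈ X := Iff.rfl

theorem coe_toEl {X : Set (HT θ r)} {hX} : (toEl X hX : Set (HT θ r)) = X := rfl

end elem

instance : Countable (Σ n, (Lst.sum Lst.skolem₁).Functions n) := by
  rw [← Cardinal.mk_le_aleph0_iff]
  refine card_functions_sum_skolem₁_le.trans (max_le le_rfl ?_)
  rw [Language.card, Cardinal.mk_le_aleph0_iff]
  haveI : Countable (Σ l, Lst.Functions l) := by
    haveI : IsEmpty (Σ l, Lst.Functions l) := ⟨fun x => Empty.elim x.2⟩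
    infer_instance
  haveI : Countable (Σ l, Lst.Relations l) := by
    refine Function.Injective.countable (β := ℕ) (f := fun x => match x with
      | ⟨_, Sym.mem⟩ => 0
      | ⟨_, Sym.wo⟩ => 1) ?_
    rintro ⟨_, _ | _⟩ ⟨_, _ | _⟩ h <;> simp_all
  exact inferInstanceAs (Countable ((Σ l, Lst.Functions l) ⊕ (Σ l, Lst.Relations l)))

/-! ### Names -/

section names

variable {Q : Type} [PartialOrder Q] [OrderTop Q] (c : Q → ZFSet.{0})

theorem check_rank (k : ℕ) : (check c k).rank < (check c (k + 1)).rank := by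
  have h1 : ZFSet.pair (check c k) (c ⊤) ∈ check c (k + 1) := by
    rw [check]; exact ZFSet.mem_insert _ _
  have h2 := ZFSet.rank_lt_of_mem h1
  refine lt_trans ?_ h2
  have h3 : ({check c k} : ZFSet) ∈ ZFSet.pair (check c k) (c ⊤) := by
    rw [ZFSet.pair]; simp
  have h4 : check c k ∈ ({check c k} : ZFSet) := by simp
  exact (ZFSet.rank_lt_of_mem h4).trans (ZFSet.rank_lt_of_mem h3)

theorem check_inj : Function.Injective (check c) := by
  have : StrictMono fun k => (check c k).rank := strictMono_nat_of_lt_succ (check_rank c)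
  intro a b h
  exact this.injective (by simp only [h])

variable {K : Type} (g : K → Q)

/-- the name of the sequence `f` -/
noncomputable def nm (f : ℕ → K) : ZFSet.{0} :=
  ZFSet.range fun k : ℕ => ZFSet.pair (check c k) (c (g (f k)))

variable {c} {g}

theorem mem_nm {f : ℕ → K} (hc : Function.Injective c) {k : ℕ} {q : Q} :
    ZFSet.pair (check c k) (c q) ∈ nm c g f ↔ q = g (f k) := by
  rw [nm, ZFSet.mem_range]
  constructor
  · rintro ⟨j, hj⟩
    rw [ZFSet.pair_inj] at hj
    have := check_inj c hj.1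
    subst this
    exact (hc hj.2).symm
  · rintro rfl
    exact ⟨k, rfl⟩

theorem nm_inj (hc : Function.Injective c) (hg : Function.Injective g) :
    Function.Injective (nm c g) := by
  intro f f' h
  funext k
  have h1 : ZFSet.pair (check c k) (c (g (f k))) ∈ nm c g f := (mem_nm hc).2 rfl
  rw [h, mem_nm hc] at h1
  exact hg h1

theorem isName_nm (f : ℕ → K) : IsName c (nm c g f) := by
  intro z hz
  rw [nm, ZFSet.mem_range] at hz
  obtain ⟨k, rfl⟩ := hz
  exact ⟨k, _, rfl⟩

theorem mem_act_nm (hc : Function.Injective c) {f : ℕ → K} {H : Q ≃o Q} {z : ZFSet.{0}} :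
    z ∈ act c H (nm c g f) ↔ ∃ k, z = ZFSet.pair (check c k) (c (H (g (f k)))) := by
  rw [act, ZFSet.mem_range]
  constructor
  · rintro ⟨⟨⟨k, q⟩, hkq⟩, rfl⟩
    have := (mem_nm hc).1 hkq
    dsimp only at this ⊢
    subst this
    exact ⟨k, rfl⟩
  · rintro ⟨k, rfl⟩
    exact ⟨⟨⟨k, g (f k)⟩, (mem_nm hc).2 rfl⟩, rfl⟩

theorem act_fix (hc : Function.Injective c) {f : ℕ → K} {H : Q ≃o Q}
    (h : act c H (nm c g f) = nm c g f) (k : ℕ) : H (g (f k)) = g (f k) := by
  have h1 : ZFSet.pair (check c k) (c (H (g (f k)))) ∈ act c H (nm c g f) :=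
    (mem_act_nm hc).2 ⟨k, rfl⟩
  rw [h, mem_nm hc] at h1
  exact h1

theorem act_eq (hc : Function.Injective c) {f : ℕ → K} {H : Q ≃o Q}
    (h : ∀ k, H (g (f k)) = g (f k)) : act c H (nm c g f) = nm c g f := by
  ext z
  rw [mem_act_nm hc, nm, ZFSet.mem_range]
  constructor
  · rintro ⟨k, rfl⟩
    exact ⟨k, by rw [h k]⟩
  · rintro ⟨k, rfl⟩
    exact ⟨k, by rw [h k]⟩

end names

end Pool.Agent.H969TP
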