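import Mathlib

/-!
Definitions for MP_b7a9b7_lc: `H(θ)`, countable elementary submodels, coded partial orders, names for
subsets of `ω`, the transformation property, and Chang's conjecture `(κ⁺, κ) ↠ (ℵ₁, ℵ₀)`.
-/

set_option autoImplicit false

namespace Pool.Agent.H969TP

open Cardinal FirstOrder

/-- `H(θ)`: the sets contained in a transitive set with fewer than `θ` elements. -/
def Hset (θ : Cardinal.{0}) : Set ZFSet.{0} :=
  {x | ∃ t : ZFSet.{0}, t.IsTransitive ∧ x ⊆ t ∧ t.card < θ}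

/-- `H(θ)` together with a binary relation `r` on it (a well-ordering in the applications). -/
def HT (θ : Cardinal.{0}) (_r : Hset θ → Hset θ → Prop) : Type 1 := Hset θ

/-- the two binary relation symbols `∈` and `⊴` -/
inductive Sym : ℕ → Type
  | mem : Sym 2
  | wo : Sym 2

/-- the first-order language with the two binary relation symbols `∈` and `⊴` -/
def Lst : FirstOrder.Language.{0, 0} := ⟨fun _ => Empty, Sym⟩

/-- the structure `(H(θ), ∈, ⊴)` -/
instance HTStr (θ : Cardinal.{0}) (r : Hset θ → Hset θ → Prop) : Lst.Structure (HT θ r) where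
  funMap := fun f => Empty.elim f
  RelMap := fun {_} R => match R with
    | Sym.mem => fun v => (v 0).1 ∈ (v 1).1
    | Sym.wo => fun v => r (v 0) (v 1)

/-- the set `x` is an element of the elementary submodel `M` of `(H(θ), ∈, ⊴)` -/
def InM {θ : Cardinal.{0}} {r : Hset θ → Hset θ → Prop} (M : Lst.ElementarySubstructure (HT θ r))
    (x : ZFSet.{0}) : Prop :=
  ∃ y ∈ M, y.1 = x

/-- `δ_M = M ∩ ω₁` -/
def delta {θ : Cardinal.{0}} {r : Hset θ → Hset θ → Prop}
    (M : Lst.ElementarySubstructure (HT θ r)) : Set Ordinal.{0} :=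
  {α | α < Ordinal.omega 1 ∧ InM M α.toZFSet}

section poset

variable {Q : Type} [PartialOrder Q] [OrderTop Q] (c : Q → ZFSet.{0})

/-- The partial order `Q`, coded as a set: `c q` is the set which represents `q ∈ Q`, and the code
is the pair of the underlying set and the set of the pairs `(p, q)` with `p ≤ q`. -/
noncomputable def code : ZFSet.{0} :=
  ZFSet.pair (ZFSet.range c)
    (ZFSet.range fun x : {pq : Q × Q // pq.1 ≤ pq.2} => ZFSet.pair (c x.1.1) (c x.1.2))

/-- the canonical name of the natural number `k`: the set of the pairs `(ǰ, 1)`, `j < k` -/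
noncomputable def check : ℕ → ZFSet.{0}
  | 0 => ∅
  | k + 1 => insert (ZFSet.pair (check k) (c ⊤)) (check k)

/-- `a` is a name for a subset of `ω`: a set of pairs `(ǩ, q)` with `k ∈ ω` and `q` in the partial
order. -/
def IsName (a : ZFSet.{0}) : Prop :=
  ∀ z ∈ a, ∃ (k : ℕ) (q : Q), z = ZFSet.pair (check c k) (c q)

/-- the name `H(a) = {(ǩ, H(q)) : (ǩ, q) ∈ a}` -/
noncomputable def act (H : Q ≃o Q) (a : ZFSet.{0}) : ZFSet.{0} :=
  ZFSet.range fun x : {kq : ℕ × Q // ZFSet.pair (check c kq.1) (c kq.2) ∈ a} =>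
    ZFSet.pair (check c x.1.1) (c (H x.1.2))

/-- The transformation property of the partial order `Q` (coded by `c`) at `(H(θ), ∈, ⊴)`, where
`⊴` is the relation `r`. -/
def TPAt (θ : Cardinal.{0}) (r : Hset θ → Hset θ → Prop) : Prop :=
  ∀ (n : ℕ) (M : Fin (n + 1) → Lst.ElementarySubstructure (HT θ r)),
    (∀ i, (M i : Set (HT θ r)).Countable) →
    (∀ i, InM (M i) (code c)) →
    (∀ i : Fin n, delta (M i.castSucc) ⊆ delta (M i.succ)) →
    ∀ a : Fin (n + 1) → ZFSet.{0}, (∀ i, IsName c (a i)) → (∀ i, InM (M i) (a i)) →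
      ∃ H : Q ≃o Q, (∀ i, InM (M (Fin.last n)) (act c H (a i))) ∧
        act c H (a (Fin.last n)) = a (Fin.last n)

/-- The transformation property: it holds at `(H(θ), ∈, ⊴)` for all sufficiently large regular `θ`
(and some well-ordering `⊴` of `H(θ)`). -/
def TP : Prop :=
  ∃ θ₀ : Cardinal.{0}, ∀ θ ≥ θ₀, θ.IsRegular →
    ∃ r : Hset θ → Hset θ → Prop, IsWellOrder (Hset θ) r ∧ TPAt c θ r

end poset

/-- Chang's conjecture `(κ⁺, κ) ↠ (ℵ₁, ℵ₀)`: every algebra `A` of size `κ⁺` with countably many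
finitary operations and every `U ⊆ A` of size `κ` has a subalgebra `X` with `|X| = ℵ₁` and
`|X ∩ U| = ℵ₀`. -/
def Chang (κ : Cardinal.{0}) : Prop :=
  ∀ (A J : Type) [Countable J] (ar : J → ℕ) (f : ∀ j, (Fin (ar j) → A) → A) (U : Set A),
    #A = Order.succ κ → #U = κ →
    ∃ X : Set A, (∀ j x, (∀ i, x i ∈ X) → f j x ∈ X) ∧ #X = ℵ₁ ∧ #(X ∩ U : Set A) = ℵ₀

end Pool.Agent.H969TP
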