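import Pool.Agent.H969TP.Alg

set_option autoImplicit false

namespace Pool.Agent.H969TP

open Cardinal

/-- The transformation property of the partial order `Q` fails badly: `Q` can be coded as a set, and
for every such code it fails at `(H(θ), ∈, ⊴)` for all sufficiently large `θ` and every `⊴`. -/
def Fails (Q : Type) [PartialOrder Q] [OrderTop Q] : Prop :=
  (∃ c : Q → ZFSet.{0}, Function.Injective c) ∧
  ∀ c : Q → ZFSet.{0}, Function.Injective c →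
    (∃ θ₀ : Cardinal.{0}, ∀ θ ≥ θ₀, ∀ r : Hset θ → Hset θ → Prop, ¬ TPAt c θ r) ∧ ¬ TP c

theorem fails {κ : Cardinal.{0}} (hκ : ℵ₁ ≤ κ) (hκ' : κ < κ ^ ℵ₀) (hC : Chang κ)
    {Q : Type} [PartialOrder Q] [OrderTop Q] (hQ : κ ≤ #Q) : Fails Q :=
  ⟨exists_code Q, fun c hc => ⟨core hκ hκ' hC hQ c hc, not_TP hκ hκ' hC hQ c hc⟩⟩

theorem final :
    (∀ κ : Cardinal.{0}, ℵ₁ ≤ κ → κ < κ ^ ℵ₀ → Chang κ → ∀ I : Type, κ ≤ #I →
      Fails (Cohen I) ∧ Fails (Random I)) ∧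
    (Chang (ℵ_ Ordinal.omega0) → ∀ I : Type, ℵ_ Ordinal.omega0 ≤ #I →
      Fails (Cohen I) ∧ Fails (Random I)) := by
  have h1 : ∀ κ : Cardinal.{0}, ℵ₁ ≤ κ → κ < κ ^ ℵ₀ → Chang κ → ∀ I : Type, κ ≤ #I →
      Fails (Cohen I) ∧ Fails (Random I) := fun κ hκ hκ' hC I hI =>
    ⟨fails hκ hκ' hC (hI.trans (Cardinal.mk_le_of_injective cohen_inj)),
      fails hκ hκ' hC (hI.trans (Cardinal.mk_le_of_injective random_inj))⟩
  refine ⟨h1, h1 _ ?_ aleph_omega_lt⟩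
  exact Cardinal.aleph_le_aleph.2 (Ordinal.one_lt_omega0.le)

end Pool.Agent.H969TP
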