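import Pool.Agent.H969TP.Core

set_option autoImplicit false

namespace Pool.Agent.H969TP

open Cardinal FirstOrder FirstOrder.Language

/-- the operations under which the submodels are closed -/
abbrev Jx : Type := (Σ n, (Lst.sum Lst.skolem₁).Functions n) ⊕ (ℕ ⊕ Unit)

/-- their arities -/
def arx : Jx → ℕ
  | Sum.inl j => j.1
  | Sum.inr _ => 1

/-- the operations -/
noncomputable def opx {θ : Cardinal.{0}} {r : Hset θ → Hset θ → Prop} [Nonempty (HT θ r)]
    (ev : ℕ → HT θ r → HT θ r) (cst : HT θ r) : ∀ j : Jx, (Fin (arx j) → HT θ r) → HT θ r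
  | Sum.inl j => fun x => Structure.funMap j.2 x
  | Sum.inr (Sum.inl k) => fun x => ev k (x (0 : Fin 1))
  | Sum.inr (Sum.inr _) => fun _ => cst

set_option maxHeartbeats 1000000 in
theorem core {κ : Cardinal.{0}} (hκ : ℵ₁ ≤ κ) (hκ' : κ < κ ^ ℵ₀) (hC : Chang κ)
    {Q : Type} [PartialOrder Q] [OrderTop Q] (hQ : κ ≤ #Q) (c : Q → ZFSet.{0})
    (hc : Function.Injective c) :
    ∃ θ₀ : Cardinal.{0}, ∀ θ ≥ θ₀, ∀ r : Hset θ → Hset θ → Prop, ¬ TPAt c θ r := by
  classical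
  have hκ0 : ℵ₀ ≤ κ := (Cardinal.aleph0_le_aleph 1).trans hκ
  -- index types
  obtain ⟨K, hK⟩ : ∃ K : Type, #K = κ := ⟨κ.out, Cardinal.mk_out κ⟩
  obtain ⟨K', hK'⟩ : ∃ K' : Type, #K' = Order.succ κ := ⟨(Order.succ κ).out, Cardinal.mk_out _⟩
  obtain ⟨⟨g, hg⟩⟩ : Nonempty (K ↪ Q) := by
    rw [← Cardinal.le_def, hK]; exact hQ
  obtain ⟨⟨ι, hι⟩⟩ : Nonempty (K' ↪ (ℕ → K)) := by
    rw [← Cardinal.le_def, hK']
    have : #(ℕ → K) = κ ^ ℵ₀ := by
      rw [← Cardinal.power_def, hK, Cardinal.mk_nat]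
    rw [this]
    exact Order.succ_le_of_lt hκ'
  -- the big set
  let W : ZFSet.{0} := {code c} ∪ ZFSet.range (nm c g) ∪ ZFSet.range (fun i : K => c (g i)) ∪
    (Ordinal.omega 1).toZFSet
  let t : ZFSet.{0} := ZFSet.vonNeumann W.rank
  have hWt : W ⊆ t := ZFSet.subset_vonNeumann_self W
  have ht : t.IsTransitive := ZFSet.isTransitive_vonNeumann _
  refine ⟨Order.succ t.card, fun θ hθ r hTP => ?_⟩
  have hWH : ∀ x ∈ W, x ∈ Hset θ := fun x hx =>
    ⟨t, ht, ht.subset_of_mem (hWt hx), lt_of_lt_of_le (Order.lt_succ _) hθ⟩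
  have hcode : code c ∈ W := by simp [W]
  have hnm : ∀ f, nm c g f ∈ W := fun f => by
    simp only [W, ZFSet.mem_union, ZFSet.mem_range]
    exact Or.inl (Or.inl (Or.inr ⟨f, rfl⟩))
  have hcg : ∀ i, c (g i) ∈ W := fun i => by
    simp only [W, ZFSet.mem_union, ZFSet.mem_range]
    exact Or.inl (Or.inr ⟨i, rfl⟩)
  have hor : ∀ α < Ordinal.omega 1, α.toZFSet ∈ W := fun α hα => by
    simp only [W, ZFSet.mem_union]
    exact Or.inr (Ordinal.toZFSet_mem_toZFSet_iff.2 hα)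
  let ecode : HT θ r := ⟨code c, hWH _ hcode⟩
  let enm : (ℕ → K) → HT θ r := fun f => ⟨nm c g f, hWH _ (hnm f)⟩
  let ecg : K → HT θ r := fun i => ⟨c (g i), hWH _ (hcg i)⟩
  let eor : Set.Iio (Ordinal.omega 1) → HT θ r := fun α => ⟨α.1.toZFSet, hWH _ (hor α.1 α.2)⟩
  have henm : Function.Injective enm := fun f f' h => nm_inj hc hg (congrArg Subtype.val h)
  have hecg : Function.Injective ecg := fun i j h => hg (hc (congrArg Subtype.val h))
  haveI : Nonempty (HT θ r) := ⟨ecode⟩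
  -- evaluation
  let ev : ℕ → HT θ r → HT θ r := fun k x => if h : ∃ f, x = enm f then ecg (h.choose k) else x
  have hev : ∀ k f, ev k (enm f) = ecg (f k) := by
    intro k f
    have h : ∃ f', enm f = enm f' := ⟨f, rfl⟩
    have h' : f = h.choose := henm h.choose_spec
    simp only [ev]
    rw [dif_pos h]
    exact congrArg (fun f' : ℕ → K => ecg (f' k)) h'.symm
  let op := opx ev ecode
  -- the set of small size
  let U : Set (HT θ r) := Set.range ecg ∪ Set.range eor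
  have hUcard : #U = Cardinal.lift.{1} κ := by
    apply le_antisymm
    · refine (Cardinal.mk_union_le _ _).trans ?_
      refine Cardinal.add_le_of_le (by simpa using hκ0) ?_ ?_
      · have := Cardinal.mk_range_le_lift (f := ecg)
        rw [hK] at this
        simpa using this
      · refine Cardinal.mk_range_le.trans ?_
        rw [Cardinal.mk_Iio_ordinal, Cardinal.lift_le]
        simpa using hκ
    · rw [← hK, ← Cardinal.lift_id'.{0, 1} #U, Cardinal.lift_umax.{0, 1}]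
      exact Cardinal.lift_mk_le'.2 ⟨⟨fun i => ⟨ecg i, Or.inl ⟨i, rfl⟩⟩, fun i j h =>
        hecg (congrArg Subtype.val h)⟩⟩
  obtain ⟨A0, hA0s, hA0c, hA0card, -⟩ := hull arx op (U ∪ Set.range fun ξ : K' => enm (ι ξ))
  have hA0 : #A0 = Cardinal.lift.{1} #K' := by
    apply le_antisymm
    · refine hA0card.trans (max_le ?_ ?_)
      · rw [hK']; exact Cardinal.aleph0_le_lift.2 (hκ0.trans (Order.le_succ κ))
      · refine (Cardinal.mk_union_le _ _).trans ?_
        refine Cardinal.add_le_of_le (by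
          rw [hK']; exact Cardinal.aleph0_le_lift.2 (hκ0.trans (Order.le_succ κ))) ?_ ?_
        · rw [hUcard, hK']; exact Cardinal.lift_le.2 (Order.le_succ κ)
        · have := Cardinal.mk_range_le_lift (f := fun ξ : K' => enm (ι ξ))
          simpa using this
    · rw [← Cardinal.lift_id'.{0, 1} #A0, Cardinal.lift_umax.{0, 1}]
      exact Cardinal.lift_mk_le'.2 ⟨⟨fun ξ => ⟨enm (ι ξ), hA0s (Or.inr ⟨ξ, rfl⟩)⟩, fun i j h =>
        hι (henm (congrArg Subtype.val h))⟩⟩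
  obtain ⟨e⟩ : Nonempty (A0 ≃ K') := by
    rw [← Cardinal.lift_mk_eq', hA0]
    simp
  -- the algebra on K'
  let F : K' → K' := fun ξ => e ⟨enm (ι ξ), hA0s (Or.inr ⟨ξ, rfl⟩)⟩
  let U' : Set K' := {ξ | (e.symm ξ).1 ∈ U}
  have hU' : #U' = κ := by
    rw [← Cardinal.lift_inj.{0, 1}, ← hUcard, ← Cardinal.lift_id'.{0, 1} #U,
      Cardinal.lift_umax.{0, 1}]
    refine Cardinal.lift_mk_eq'.2 ⟨⟨fun ξ => ⟨(e.symm ξ.1).1, ξ.2⟩,
      fun x => ⟨e ⟨x.1, hA0s (Or.inl x.2)⟩, by simp [U']⟩, fun ξ => by simp, fun x => by simp⟩⟩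
  obtain ⟨X, hXc, hX1, hXU⟩ := hC K' (Jx ⊕ Unit) (fun j => Sum.elim arx (fun _ => 1) j)
    (fun j => match j with
      | Sum.inl j => fun x => e ⟨op j (fun i => (e.symm (x i)).1), hA0c j _ fun i => (e.symm (x i)).2⟩
      | Sum.inr _ => fun x => F (x (0 : Fin 1))) U' hK' hU'
  -- the model B
  let B : Set (HT θ r) := {x | ∃ ξ ∈ X, (e.symm ξ).1 = x}
  have hBc : ∀ j x, (∀ i, x i ∈ B) → op j x ∈ B := by
    intro j x hx
    choose ξ hξ hξx using hx
    refine ⟨_, hXc (Sum.inl j) ξ hξ, ?_⟩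
    dsimp only
    rw [Equiv.symm_apply_apply]
    exact congrArg (op j) (funext hξx)
  have hBF : ∀ ξ ∈ X, enm (ι ξ) ∈ B := by
    intro ξ hξ
    refine ⟨F ξ, hXc (Sum.inr ()) (fun _ => ξ) (fun _ => hξ), ?_⟩
    simp only [F, Equiv.symm_apply_apply]
  have hBU : (B ∩ U).Countable := by
    have h1 : (X ∩ U').Countable := by
      rw [← Cardinal.le_aleph0_iff_set_countable, hXU]
    refine (h1.image fun ξ => (e.symm ξ).1).mono ?_
    rintro x ⟨⟨ξ, hξ, rfl⟩, hx⟩
    exact ⟨ξ, ⟨hξ, hx⟩, rfl⟩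
  have hXne : X.Nonempty := by
    rw [Set.nonempty_iff_ne_empty]
    rintro rfl
    simp at hX1
    exact (Cardinal.aleph_pos 1).ne hX1
  have hevB : ∀ f, enm f ∈ B → ∀ k, ecg (f k) ∈ B := by
    intro f hf k
    have := hBc (Sum.inr (Sum.inl k)) (fun _ => enm f) (fun _ => hf)
    have h2 : op (Sum.inr (Sum.inl k)) (fun _ => enm f) = ev k (enm f) := rfl
    rw [h2, hev] at this
    exact this
  -- the countable set S and its enumeration
  let S : Set K := {i | ecg i ∈ B}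
  have hS : S.Countable := by
    have : S ⊆ ecg ⁻¹' (B ∩ U) := fun i hi => ⟨hi, Or.inl ⟨i, rfl⟩⟩
    exact (hBU.preimage hecg).mono this
  have hSne : S.Nonempty := by
    obtain ⟨ξ, hξ⟩ := hXne
    exact ⟨ι ξ 0, hevB _ (hBF ξ hξ) 0⟩
  obtain ⟨s, hs⟩ := hS.exists_eq_range hSne
  -- M₁
  obtain ⟨X1, hX1s, hX1c, hX1card, -⟩ := hull arx op ({enm s, ecode} ∪ (B ∩ U))
  have hX1cnt : X1.Countable := by
    rw [← Cardinal.le_aleph0_iff_set_countable]
    refine hX1card.trans (max_le le_rfl ?_)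
    rw [Cardinal.le_aleph0_iff_set_countable]
    exact (((Set.countable_singleton _).insert _)).union hBU
  obtain ⟨ξ, hξX, hξ⟩ : ∃ ξ ∈ X, enm (ι ξ) ∉ X1 := by
    by_contra hcon
    push Not at hcon
    have : X.Countable := by
      have h2 : X ⊆ (fun ξ => enm (ι ξ)) ⁻¹' X1 := fun ξ hξ => hcon ξ hξ
      exact (hX1cnt.preimage (henm.comp hι)).mono h2
    rw [← Cardinal.le_aleph0_iff_set_countable, hX1] at this
    exact absurd this (not_le.2 Cardinal.aleph0_lt_aleph_one)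
  let f := ι ξ
  have hfB : enm f ∈ B := hBF ξ hξX
  -- M₀
  obtain ⟨X0, hX0s, hX0c, hX0card, hX0min⟩ := hull arx op {enm f}
  have hX0cnt : X0.Countable := by
    rw [← Cardinal.le_aleph0_iff_set_countable]
    refine hX0card.trans (max_le le_rfl ?_)
    rw [Cardinal.le_aleph0_iff_set_countable]
    exact Set.countable_singleton _
  have hX0B : X0 ⊆ B := hX0min B (by rintro _ rfl; exact hfB) hBc
  have hf0 : enm f ∈ X0 := hX0s rfl
  have hcode0 : ecode ∈ X0 := hX0c (Sum.inr (Sum.inr ())) (fun _ => enm f) (fun _ => hf0)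
  have hcode1 : ecode ∈ X1 := hX1s (Or.inl (by simp))
  have hs1 : enm s ∈ X1 := hX1s (Or.inl (by simp))
  let M0 := toEl X0 (fun j x hx => hX0c (Sum.inl j) x hx)
  let M1 := toEl X1 (fun j x hx => hX1c (Sum.inl j) x hx)
  obtain ⟨H, hH1, hH2⟩ := hTP 1 ![M0, M1] (by
      intro i
      fin_cases i
      · exact hX0cnt
      · exact hX1cnt)
    (by
      intro i
      fin_cases i
      · exact ⟨ecode, hcode0, rfl⟩
      · exact ⟨ecode, hcode1, rfl⟩)
    (by
      intro i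
      fin_cases i
      rintro α ⟨hα, y, hy, hyα⟩
      refine ⟨hα, y, ?_, hyα⟩
      have hy0 : y ∈ X0 := hy
      have hyU : y ∈ U := Or.inr ⟨⟨α, hα⟩, Subtype.ext hyα.symm⟩
      exact hX1s (Or.inr ⟨hX0B hy0, hyU⟩))
    ![nm c g f, nm c g s] (by
      intro i
      fin_cases i
      · exact isName_nm f
      · exact isName_nm s)
    (by
      intro i
      fin_cases i
      · exact ⟨enm f, hf0, rfl⟩
      · exact ⟨enm s, hs1, rfl⟩)
  have hfix : ∀ k, H (g (s k)) = g (s k) := fun k => act_fix hc hH2 k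
  have hfS : ∀ k, ∃ j, f k = s j := by
    intro k
    have h1 : f k ∈ S := hevB f hfB k
    rw [hs] at h1
    obtain ⟨j, hj⟩ := h1
    exact ⟨j, hj.symm⟩
  have hfixf : act c H (nm c g f) = nm c g f := by
    refine act_eq hc fun k => ?_
    obtain ⟨j, hj⟩ := hfS k
    rw [hj]
    exact hfix j
  obtain ⟨y, hy, hyf⟩ := hH1 0
  have hy1 : y ∈ X1 := hy
  have : y = enm f := Subtype.ext (hyf.trans hfixf)
  rw [this] at hy1
  exact hξ hy1

/-- Under Chang's conjecture for `κ`, no partial order with at least `κ` elements has the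
transformation property. -/
theorem not_TP {κ : Cardinal.{0}} (hκ : ℵ₁ ≤ κ) (hκ' : κ < κ ^ ℵ₀) (hC : Chang κ)
    {Q : Type} [PartialOrder Q] [OrderTop Q] (hQ : κ ≤ #Q) (c : Q → ZFSet.{0})
    (hc : Function.Injective c) : ¬ TP c := by
  rintro ⟨θ₀, hθ₀⟩
  obtain ⟨θ₁, hθ₁⟩ := core hκ hκ' hC hQ c hc
  have hreg : (Order.succ (max (max θ₀ θ₁) ℵ₀)).IsRegular :=
    Cardinal.isRegular_succ (le_max_right _ _)
  obtain ⟨r, -, hr⟩ := hθ₀ _ (((le_max_left _ _).trans (le_max_left _ _)).trans (Order.le_succ _)) hreg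
  exact hθ₁ _ (((le_max_right _ _).trans (le_max_left _ _)).trans (Order.le_succ _)) r hr

end Pool.Agent.H969TP
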